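import Pool.Agent.Run7.h343.NF.Fin

/-!
Sub-Weyl bounds for Hecke `L`-functions of every number field in the depth aspect.

Let `K` be a number field of degree `n`, `𝔭` a prime ideal of degree one, unramified over the rational
prime `p ≥ 7` below it, and `ψ` a unitary Hecke character of `K` of conductor `𝔭 ^ ν` with
`ψ ((x)) = ∏_w |x|_w ^ (i τ_w)` for `x = 1` mod `𝔭 ^ ν`. The finite part of `ψ` is a primitive Dirichlet
character mod `p ^ ν`. We prove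
`L (1/2 + it, ψ) ≪ p ^ (n + 4) (1 + |t| + ∑ |τ_w|) ^ (2 n + 1) (p ^ ν) ^ (19/116 + ε)`, `19/116 < 1/6`,
with a constant depending on `K` and `ε` only. For `K` cyclic of degree `m` over `ℚ` and `p` split in `K`
these are the `L`-functions of cuspidal representations of `GL_m` of conductor `|D_K| p ^ ν`.
-/

set_option autoImplicit false

namespace Pool.Agent.Results.MP_52e316_nt.SubWeylEveryNumberField

open NumberField

variable {K : Type} [Field K] [NumberField K]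

/-- `∏_w |x|_w ^ (i τ_w)` over the infinite places `w` -/
noncomputable def arch (τ : InfinitePlace K → ℝ) (x : K) : ℂ :=
  ∏ w : InfinitePlace K, ((w x : ℝ) : ℂ) ^ ((τ w : ℂ) * Complex.I)

/-- `ψ` is a unitary Hecke character of conductor exactly `𝔭 ^ ν` and of infinity type `τ`: it is a
completely multiplicative function of the integral ideals, of absolute value one on the ideals prime to
`𝔭` and zero on the others, with `ψ ((x)) = ∏_w |x|_w ^ (i τ_w)` for all `x = 1` mod `𝔭 ^ ν`, and this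
fails for some `x = 1` mod `𝔭 ^ (ν - 1)` prime to `𝔭`. -/
structure IsHecke (𝔭 : Ideal (𝓞 K)) (ν : ℕ) (τ : InfinitePlace K → ℝ) (ψ : Ideal (𝓞 K) →*₀ ℂ) : Prop where
  norm_one : ∀ 𝔞 : Ideal (𝓞 K), ¬ 𝔞 ≤ 𝔭 → ‖ψ 𝔞‖ = 1
  zero : ∀ 𝔞 : Ideal (𝓞 K), 𝔞 ≤ 𝔭 → ψ 𝔞 = 0
  prin : ∀ x : 𝓞 K, x ≠ 0 → x - 1 ∈ 𝔭 ^ ν → ψ (Ideal.span {x}) = arch τ (x : K)
  exact : ∃ x : 𝓞 K, x ∉ 𝔭 ∧ x - 1 ∈ 𝔭 ^ (ν - 1) ∧ ψ (Ideal.span {x}) ≠ arch τ (x : K)

/-- **Theorem.** For every number field `K` and every `ε > 0` there is `C` such that for every prime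
`p ≥ 7`, every prime ideal `𝔭` of norm `p` with `p ∉ 𝔭 ^ 2`, every `ν ≥ 1` and every unitary Hecke
character `ψ` of conductor `𝔭 ^ ν` and infinity type `τ` there is an entire function `L` with
`L s = ∑_𝔞 ψ (𝔞) (N 𝔞) ^ (-s)` for `Re s > 1` and, for all real `t`,
`|L (1/2 + it)| ≤ C p ^ (n + 4) (1 + |t| + ∑_w |τ_w|) ^ (2 n + 1) (p ^ ν) ^ (19/116 + ε)`, `n = [K : ℚ]`. -/
theorem result (K : Type) [Field K] [NumberField K] : ∀ ε : ℝ, 0 < ε → ∃ C : ℝ,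
    ∀ (p : ℕ) (𝔭 : Ideal (𝓞 K)), p.Prime → 7 ≤ p → Ideal.absNorm 𝔭 = p → (p : 𝓞 K) ∉ 𝔭 ^ 2 →
    ∀ ν : ℕ, 1 ≤ ν → ∀ (τ : InfinitePlace K → ℝ) (ψ : Ideal (𝓞 K) →*₀ ℂ), IsHecke 𝔭 ν τ ψ →
    ∃ L : ℂ → ℂ, Differentiable ℂ L ∧
      (∀ s : ℂ, 1 < s.re →
        HasSum (fun 𝔞 : Ideal (𝓞 K) => ψ 𝔞 * ((Ideal.absNorm 𝔞 : ℕ) : ℂ) ^ (-s)) (L s)) ∧
      ∀ t : ℝ, ‖L (1 / 2 + (t : ℂ) * Complex.I)‖ ≤
        C * (p : ℝ) ^ (Module.finrank ℚ K + 4) *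
          (1 + |t| + ∑ w : InfinitePlace K, |τ w|) ^ (2 * Module.finrank ℚ K + 1) *
          ((p : ℝ) ^ ν) ^ (19 / 116 + ε : ℝ) := by
  intro ε hε
  obtain ⟨C, -, h⟩ := Run7.h343.NF.main K hε
  refine ⟨C, fun p 𝔭 hp hp7 hN hunr ν hν τ ψ hψ => ?_⟩
  have hH : Run7.h343.NF.HC 𝔭 ν τ ψ := ⟨hψ.norm_one, hψ.zero, hψ.prin, hψ.exact⟩
  obtain ⟨L, h1, h2, h3⟩ := h p 𝔭 ⟨hp, hN, hunr⟩ hp7 ν hν τ ψ hH
  have hcard : Fintype.card (K →+* ℂ) = Module.finrank ℚ K := Pool.Agent.Y773.G.card_emb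
  rw [hcard] at h3
  refine ⟨L, h1, fun s hs => ?_, h3⟩
  have h4 := (Pool.Agent.Y773.G.summable_LI hH.norm_le hs).hasSum
  rw [h2 s hs]
  exact h4

end Pool.Agent.Results.MP_52e316_nt.SubWeylEveryNumberField
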